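import Pool.Agent.W711.HT.Defs

/-!
# EK/8 (helper738): Bernstein's inequality and a lower bound for `bet`
-/

set_option autoImplicit false

namespace Pool.Agent.N738.EK

open Filter Finset Topology Metric
open scoped Real

/-! ### Bernstein's inequality -/

/-- the polynomial `w ^ n P ((w + 1 / w) / 2)` -/
noncomputable def QQ (P : Polynomial ℂ) (n : ℕ) (w : ℂ) : ℂ :=
  ∑ k ∈ range (n + 1), P.coeff k * ((w ^ 2 + 1) / 2) ^ k * w ^ (n - k)

theorem QQ_eq (P : Polynomial ℂ) (n : ℕ) (hn : P.natDegree ≤ n) (w : ℂ) (hw : w ≠ 0) :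
    QQ P n w = w ^ n * P.eval ((w + w⁻¹) / 2) := by
  rw [Polynomial.eval_eq_sum_range' (Nat.lt_succ_of_le hn), mul_sum]
  refine sum_congr rfl fun k hk => ?_
  have hk' : k ≤ n := Nat.lt_succ_iff.mp (mem_range.mp hk)
  have h1 : w ^ n = w ^ (n - k) * w ^ k := by rw [← pow_add, Nat.sub_add_cancel hk']
  have h2 : (w + w⁻¹) / 2 * w = (w ^ 2 + 1) / 2 := by field_simp
  rw [h1, ← h2, mul_pow]
  ring

theorem QQ_diff (P : Polynomial ℂ) (n : ℕ) : Differentiable ℂ (QQ P n) := by
  unfold QQ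
  fun_prop

theorem bern_up (P : Polynomial ℂ) (n : ℕ) (hn : P.natDegree ≤ n) (M : ℝ)
    (hM : ∀ x : ℝ, ‖P.eval (Complex.cos x)‖ ≤ M) (ψ : ℂ) (hψ : 0 ≤ ψ.im) :
    ‖P.eval (Complex.cos ψ)‖ ≤ M * Real.exp (n * ψ.im) := by
  have hcos : ∀ z : ℂ, (Complex.exp (z * Complex.I) + (Complex.exp (z * Complex.I))⁻¹) / 2 =
      Complex.cos z := by
    intro z
    rw [← Complex.exp_neg, Complex.cos]
    ring_nf
  have hfr : ∀ w ∈ frontier (ball (0 : ℂ) 1), ‖QQ P n w‖ ≤ M := by
    intro w hw
    rw [frontier_ball (0 : ℂ) one_ne_zero, mem_sphere_zero_iff_norm] at hw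
    have hw0 : w ≠ 0 := by
      intro h
      rw [h, norm_zero] at hw
      exact zero_ne_one hw
    have h1 : Complex.exp (w.arg * Complex.I) = w := by
      have := Complex.norm_mul_exp_arg_mul_I w
      rw [hw] at this
      simpa using this
    rw [QQ_eq P n hn w hw0, norm_mul, norm_pow, hw, one_pow, one_mul]
    rw [← h1, hcos]
    exact hM w.arg
  have hin : ∀ w : ℂ, ‖w‖ ≤ 1 → ‖QQ P n w‖ ≤ M := by
    intro w hw
    refine Complex.norm_le_of_forall_mem_frontier_norm_le isBounded_ball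
      (QQ_diff P n).diffContOnCl hfr ?_
    rw [closure_ball (0 : ℂ) one_ne_zero, mem_closedBall_zero_iff]
    exact hw
  set w := Complex.exp (ψ * Complex.I) with hw
  have hwn : ‖w‖ = Real.exp (-ψ.im) := by
    rw [hw, Complex.norm_exp]
    simp
  have hw0 : w ≠ 0 := Complex.exp_ne_zero _
  have h2 := hin w (by
    rw [hwn]
    exact Real.exp_le_one_iff.mpr (by linarith))
  rw [QQ_eq P n hn w hw0, hw, hcos, ← hw, norm_mul, norm_pow, hwn, ← Real.exp_nat_mul] at h2
  have h3 : ‖P.eval (Complex.cos ψ)‖ = Real.exp (n * ψ.im) *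
      (Real.exp (n * -ψ.im) * ‖P.eval (Complex.cos ψ)‖) := by
    rw [← mul_assoc, ← Real.exp_add]
    have : (n : ℝ) * ψ.im + n * -ψ.im = 0 := by ring
    rw [this, Real.exp_zero, one_mul]
  rw [h3, mul_comm M]
  exact mul_le_mul_of_nonneg_left h2 (Real.exp_nonneg _)

/-- Bernstein's inequality for even trigonometric polynomials -/
theorem bern (P : Polynomial ℂ) (n : ℕ) (hn : P.natDegree ≤ n) (M : ℝ)
    (hM : ∀ x : ℝ, ‖P.eval (Complex.cos x)‖ ≤ M) (ψ : ℂ) :
    ‖P.eval (Complex.cos ψ)‖ ≤ M * Real.exp (n * |ψ.im|) := by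
  rcases le_total 0 ψ.im with h | h
  · rw [abs_of_nonneg h]
    exact bern_up P n hn M hM ψ h
  · rw [abs_of_nonpos h, ← Complex.cos_neg ψ]
    have := bern_up P n hn M hM (-ψ) (by simpa using h)
    simpa using this

/-! ### The constant -/

open Pool.Agent.W711.HT in
theorem bet_ge : 1 / 2 ≤ bet := by
  have hπ := Real.pi_pos
  have h1 : ∫ t in (0 : ℝ)..(π / 4), Real.log (2 * t) = π / 4 * (Real.log (π / 2) - 1) := by
    have h := intervalIntegral.integral_comp_mul_left (a := 0) (b := π / 4) Real.log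
      (two_ne_zero (α := ℝ))
    rw [h, integral_log]
    have e : 2 * (π / 4) = π / 2 := by ring
    rw [e]
    simp
    ring
  have h2 : ∫ t in (0 : ℝ)..(π / 4), Real.log (2 * Real.sin t) ≤
      ∫ t in (0 : ℝ)..(π / 4), Real.log (2 * t) := by
    refine intervalIntegral.integral_mono_on_of_le_Ioo (by positivity) ?_ ?_ ?_
    · have h3 : IntervalIntegrable (fun t => Real.log 2 + Real.log (Real.sin t))
          MeasureTheory.volume 0 (π / 4) :=
        intervalIntegrable_const.add intervalIntegrable_log_sin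
      refine h3.congr_uIoo fun t ht => ?_
      rw [Set.uIoo_of_le (by positivity)] at ht
      have h4 : 0 < Real.sin t := Real.sin_pos_of_pos_of_lt_pi ht.1 (by linarith [ht.2])
      exact (Real.log_mul two_ne_zero h4.ne').symm
    · have h3 : IntervalIntegrable (fun t => Real.log 2 + Real.log t)
          MeasureTheory.volume 0 (π / 4) :=
        intervalIntegrable_const.add intervalIntegral.intervalIntegrable_log'
      refine h3.congr_uIoo fun t ht => ?_
      rw [Set.uIoo_of_le (by positivity)] at ht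
      exact (Real.log_mul two_ne_zero ht.1.ne').symm
    · intro t ht
      have h4 : 0 < Real.sin t := Real.sin_pos_of_pos_of_lt_pi ht.1 (by linarith [ht.2])
      exact Real.log_le_log (by positivity) (by linarith [Real.sin_lt ht.1])
  have h5 : Real.log (π / 2) ≤ 1 / 2 := by
    rw [Real.log_le_iff_le_exp (by positivity)]
    have h6 : (1 : ℝ) / 2 + 1 ≤ Real.exp (1 / 2) := Real.add_one_le_exp _
    have h7 : (1 : ℝ) + 1 / 2 + (1 / 2) ^ 2 / 2 ≤ Real.exp (1 / 2) :=
      Real.quadratic_le_exp_of_nonneg (by norm_num)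
    have h8 := Real.pi_lt_d2
    norm_num at h7
    linarith
  unfold bet
  have h9 : ∫ t in (0 : ℝ)..(π / 4), Real.log (2 * Real.sin t) ≤ π / 4 * (-1 / 2) := by
    refine h2.trans ?_
    rw [h1]
    exact mul_le_mul_of_nonneg_left (by linarith) (by positivity)
  have h10 : 4 / π * (π / 4 * (-1 / 2)) = -1 / 2 := by field_simp
  have h11 := mul_le_mul_of_nonneg_left h9 (by positivity : 0 ≤ 4 / π)
  rw [h10] at h11
  linarith

end Pool.Agent.N738.EK
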