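import Pool.Agent.N561.EK.Stm
import Pool.Agent.N738.EK.Bern

/-!
# EK/8 (helper738): the upper half of the kernel
-/

set_option autoImplicit false

namespace Pool.Agent.N738.EK

open Filter Finset Topology Metric
open Pool.Agent.W711.HT hiding XX
open Pool.Agent.N561 Pool.Agent.N561.EK
open scoped Real

/-- the polynomial `R_d` -/
noncomputable def RpP (N d : ℕ) : Polynomial ℂ :=
  ∏ j ∈ range d, (Polynomial.C 2 * Polynomial.X + Polynomial.C (2 * (Real.cos (phi N j) : ℂ)))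

theorem RpP_eval (N d : ℕ) (ψ : ℂ) : (RpP N d).eval (Complex.cos ψ) = Rp N d ψ := by
  rw [RpP, Polynomial.eval_prod]
  unfold Rp
  refine prod_congr rfl fun j _ => ?_
  simp

theorem RpP_deg (N d : ℕ) : (RpP N d).natDegree ≤ d := by
  refine (Polynomial.natDegree_prod_le _ _).trans ?_
  refine (sum_le_sum fun j _ => ?_).trans (b := ∑ _j ∈ range d, 1) (by simp)
  exact Polynomial.natDegree_linear_le

/-- the upper half of the kernel -/
noncomputable def DK (N : ℕ) (ψ φ : ℂ) : ℂ := ker N ψ φ - k0 N ψ φ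

/-- the upper half as a polynomial -/
noncomputable def PD (N : ℕ) (φ : ℂ) : Polynomial ℂ :=
  ∑ d ∈ Ico ((N + 1) / 2) N, Polynomial.C (Rp N d φ / (Sd N d : ℂ) ^ 4) * RpP N d

theorem PD_deg (N : ℕ) (φ : ℂ) : (PD N φ).natDegree ≤ N := by
  refine Polynomial.natDegree_sum_le_of_forall_le _ _ fun d hd => ?_
  refine (Polynomial.natDegree_C_mul_le _ _).trans ((RpP_deg N d).trans ?_)
  exact (mem_Ico.mp hd).2.le

theorem PD_eval (N : ℕ) (ψ φ : ℂ) : (PD N φ).eval (Complex.cos ψ) = DK N ψ φ := by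
  unfold PD DK Pool.Agent.W711.HT.ker k0
  rw [Polynomial.eval_finsetSum, ← sum_Ico_eq_sub _ (by omega : (N + 1) / 2 ≤ N)]
  refine sum_congr rfl fun d _ => ?_
  rw [Polynomial.eval_mul, Polynomial.eval_C, RpP_eval]
  ring

theorem DK_comm (N : ℕ) (ψ φ : ℂ) : DK N ψ φ = DK N φ ψ := by
  unfold DK Pool.Agent.W711.HT.ker k0
  congr 1
  · exact sum_congr rfl fun d _ => by ring
  · exact sum_congr rfl fun d _ => by ring

theorem DK_cos (N : ℕ) (ψ ψ' φ : ℂ) (h : Complex.cos ψ = Complex.cos ψ') :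
    DK N ψ φ = DK N ψ' φ := by
  rw [← PD_eval, ← PD_eval, h]

theorem kup1 (hR : S_RB) : KUP := by
  intro ε hε
  obtain ⟨τ, hτ, hev⟩ := hR.2 ε hε
  filter_upwards [hev] with N hN
  have hreal : ∀ x x' : ℝ, ‖DK N x x'‖ ≤ Real.exp (N * ε) := by
    intro x x'
    have hc : ∀ x : ℝ, Complex.cos x = Complex.cos (Real.arccos (Real.cos x) : ℝ) := by
      intro x
      rw [← Complex.ofReal_cos, ← Complex.ofReal_cos,
        Real.cos_arccos (Real.neg_one_le_cos x) (Real.cos_le_one x)]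
    have hb : ∀ x : ℝ, |Real.arccos (Real.cos x)| ≤ π := by
      intro x
      rw [abs_of_nonneg (Real.arccos_nonneg _)]
      exact Real.arccos_le_pi _
    rw [DK_cos N _ _ _ (hc x), DK_comm, DK_cos N _ _ _ (hc x')]
    have h := (hN (Real.arccos (Real.cos x)) 0 (Real.arccos (Real.cos x')) 0 (hb x)
      (by simpa using hτ.le) (hb x') (by simpa using hτ.le)).2.2
    simpa [DK] using h
  have h2 : ∀ (ψ : ℂ) (x : ℝ), ‖DK N ψ x‖ ≤ Real.exp (N * ε) * Real.exp (N * |ψ.im|) := by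
    intro ψ x
    have h := bern (PD N x) N (PD_deg N x) (Real.exp (N * ε)) (fun y => by
      rw [PD_eval]; exact hreal y x) ψ
    rwa [PD_eval] at h
  intro ψ φ
  have h := bern (PD N ψ) N (PD_deg N ψ) (Real.exp (N * ε) * Real.exp (N * |ψ.im|))
    (fun y => by rw [PD_eval, DK_comm]; exact h2 ψ y) φ
  rw [PD_eval, DK_comm, ← Real.exp_add, ← Real.exp_add] at h
  refine h.trans (le_of_eq ?_)
  congr 1
  ring

theorem zero_DD : (0 : ℂ) ∈ DD := by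
  simp [DD]

theorem conv_DD : Convex ℝ DD := by
  have h1 : Convex ℝ {w : ℂ | |w.re| < 21 / 20} := by
    have : {w : ℂ | |w.re| < 21 / 20} = Complex.reLm ⁻¹' (Set.Ioo (-(21 / 20)) (21 / 20)) := by
      ext w
      simp [abs_lt]
    rw [this]
    exact (convex_Ioo _ _).linear_preimage _
  have h2 : Convex ℝ {w : ℂ | |w.im| < 1 / 4} := by
    have : {w : ℂ | |w.im| < 1 / 4} = Complex.imLm ⁻¹' (Set.Ioo (-(1 / 4)) (1 / 4)) := by
      ext w
      simp [abs_lt]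
    rw [this]
    exact (convex_Ioo _ _).linear_preimage _
  have : DD = {w : ℂ | |w.re| < 21 / 20} ∩ {w : ℂ | |w.im| < 1 / 4} := rfl
  rw [this]
  exact h1.inter h2

theorem sg_diff (hP : POT) (hM : MUL) {ψ φ : ℂ} (hψ : ψ ∈ DD) (hφ : φ ∈ DD) :
    ‖sg ψ φ - sg 0 φ‖ ≤ 58 / 250 := by
  have hπ := Real.pi_pos
  set s : Set ℂ := DD ∩ closedBall 0 ‖ψ‖ with hs
  have hconv : Convex ℝ s := conv_DD.inter (convex_closedBall _ _)
  have h1 : ∀ w ∈ s, HasDerivWithinAt (fun z => sg z φ) (s1 w φ) s w := by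
    intro w hw
    exact ((hP.d1 w hw.1 φ hφ).differentiableAt.hasDerivAt).hasDerivWithinAt
  have h2 : ∀ w ∈ s, ‖s1 w φ‖ ≤ 5 / 4 * ‖ψ‖ / (2 * π) := by
    intro w hw
    have h3 := hM.mD w hw.1 φ hφ
    have h4 : ‖w‖ ≤ ‖ψ‖ := by simpa using hw.2
    have h5 : ‖w / (2 * π : ℂ)‖ = ‖w‖ / (2 * π) := by
      rw [norm_div]
      congr 1
      rw [norm_mul, Complex.norm_real, Real.norm_of_nonneg hπ.le]
      simp
    have h6 : ‖s1 w φ‖ ≤ ‖s1 w φ + w / (2 * π)‖ + ‖w / (2 * π : ℂ)‖ := by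
      have := norm_sub_le (s1 w φ + w / (2 * π)) (w / (2 * π))
      rwa [add_sub_cancel_right] at this
    rw [h5] at h6
    calc ‖s1 w φ‖ ≤ 1 / 4 * ‖w‖ / (2 * π) + ‖w‖ / (2 * π) := h6.trans (by linarith)
      _ = 5 / 4 * ‖w‖ / (2 * π) := by ring
      _ ≤ 5 / 4 * ‖ψ‖ / (2 * π) := by gcongr
  have h7 := hconv.norm_image_sub_le_of_norm_hasDerivWithin_le h1 h2
    (⟨zero_DD, by simp⟩ : (0 : ℂ) ∈ s) (⟨hψ, by simp⟩ : ψ ∈ s)
  rw [sub_zero] at h7
  refine h7.trans ?_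
  have h8 : ‖ψ‖ ^ 2 ≤ 1165 / 1000 := by
    rw [Complex.sq_norm, Complex.normSq_apply]
    have a1 := hψ.1
    have a2 := hψ.2
    have b1 : ψ.re * ψ.re ≤ (21 / 20) ^ 2 := by
      rw [← sq, ← sq_abs]; exact pow_le_pow_left₀ (abs_nonneg _) a1.le 2
    have b2 : ψ.im * ψ.im ≤ (1 / 4) ^ 2 := by
      rw [← sq, ← sq_abs]; exact pow_le_pow_left₀ (abs_nonneg _) a2.le 2
    norm_num at b1 b2 ⊢
    linarith
  have h9 : 5 / 4 * ‖ψ‖ / (2 * π) * ‖ψ‖ = 5 / 4 * ‖ψ‖ ^ 2 / (2 * π) := by ring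
  rw [h9, div_le_iff₀ (by positivity)]
  have := Real.pi_gt_d2
  nlinarith

theorem sg_low (hP : POT) (hM : MUL) {ψ φ : ℂ} (hψ : ψ ∈ DD) (hφ : φ ∈ DD) :
    53 / 100 ≤ (sg ψ φ).re := by
  have h1 := sg_diff hP hM hψ hφ
  have h2 := sg_diff hP hM hφ zero_DD
  rw [hP.zero] at h2
  rw [hP.sym 0 φ] at h1
  have h3 := (Complex.abs_re_le_norm _).trans h1
  have h4 := (Complex.abs_re_le_norm _).trans h2
  rw [Complex.sub_re, abs_le] at h3 h4
  rw [Complex.ofReal_re] at h4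
  have := bet_ge
  linarith [h3.1, h4.1]

theorem kmw1 (hK : KUP) : POT → MUL → K0M → KMW := by
  intro hP hM h0 V hV hVc ε hε
  have e1 := h0 V hV hVc (min (ε / 2) (1 / 200)) (lt_min (by positivity) (by norm_num))
  have e2 := hK (1 / 200) (by norm_num)
  have e3 : ∀ᶠ N : ℕ in atTop, Real.log 2 / (ε / 2) ≤ (N : ℝ) :=
    tendsto_natCast_atTop_atTop.eventually_ge_atTop _
  have e4 : ∀ᶠ N : ℕ in atTop, Real.log 2 / (1 / 50) ≤ (N : ℝ) :=
    tendsto_natCast_atTop_atTop.eventually_ge_atTop _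
  filter_upwards [e1, e2, e3, e4] with N h1 h2 h3 h4
  rw [div_le_iff₀ (by positivity)] at h3 h4
  intro ψ hψ φ hφ
  obtain ⟨hk, hk'⟩ := h1 ψ hψ φ hφ
  have hd := h2 ψ φ
  have hN : (0 : ℝ) ≤ N := Nat.cast_nonneg N
  have hψD := hV hψ
  have hφD := hV hφ
  have hlow := sg_low hP hM hψD hφD
  have hkn : 0 < ‖k0 N ψ φ‖ := norm_pos_iff.mpr hk
  have hmin1 : min (ε / 2) (1 / 200) * (N : ℝ) ≤ ε / 2 * N :=
    mul_le_mul_of_nonneg_right (min_le_left _ _) hN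
  have hmin2 : min (ε / 2) (1 / 200) * (N : ℝ) ≤ 1 / 200 * N :=
    mul_le_mul_of_nonneg_right (min_le_right _ _) hN
  rw [abs_le] at hk'
  have hlog : (525 / 1000 : ℝ) * N ≤ Real.log ‖k0 N ψ φ‖ := by
    have := mul_le_mul_of_nonneg_left hlow hN
    linarith [hk'.1]
  have hd2 : ‖ker N ψ φ - k0 N ψ φ‖ ≤ ‖k0 N ψ φ‖ / 2 := by
    refine hd.trans ?_
    have e5 : ‖k0 N ψ φ‖ / 2 = Real.exp (Real.log ‖k0 N ψ φ‖ - Real.log 2) := by
      rw [Real.exp_sub, Real.exp_log hkn, Real.exp_log (by norm_num)]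
    rw [e5]
    refine Real.exp_le_exp.mpr ?_
    have i1 : |ψ.im| ≤ 1 / 4 := hψD.2.le
    have i2 : |φ.im| ≤ 1 / 4 := hφD.2.le
    have i3 : (N : ℝ) * (|ψ.im| + |φ.im| + 1 / 200) ≤ N * (505 / 1000) :=
      mul_le_mul_of_nonneg_left (by linarith) hN
    linarith
  have hlo : ‖k0 N ψ φ‖ / 2 ≤ ‖ker N ψ φ‖ := by
    have := norm_sub_norm_le (k0 N ψ φ) (ker N ψ φ)
    rw [norm_sub_rev] at this
    linarith
  have hup : ‖ker N ψ φ‖ ≤ ‖k0 N ψ φ‖ * 2 := by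
    have := norm_sub_norm_le (ker N ψ φ) (k0 N ψ φ)
    linarith
  have hkp : 0 < ‖ker N ψ φ‖ := lt_of_lt_of_le (by positivity) hlo
  refine ⟨norm_pos_iff.mp hkp, ?_⟩
  have l1 : Real.log ‖k0 N ψ φ‖ - Real.log 2 ≤ Real.log ‖ker N ψ φ‖ := by
    rw [← Real.log_div hkn.ne' (by norm_num)]
    exact Real.log_le_log (by positivity) hlo
  have l2 : Real.log ‖ker N ψ φ‖ ≤ Real.log ‖k0 N ψ φ‖ + Real.log 2 := by
    rw [← Real.log_mul hkn.ne' (by norm_num)]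
    exact Real.log_le_log hkp hup
  rw [abs_le]
  constructor
  · linarith [hk'.1]
  · linarith [hk'.2]

/-- EK/8 -/
theorem kup (hR : Pool.Agent.N561.S_RB) : Pool.Agent.N561.EK.S_KUP :=
  ⟨kup1 hR, kmw1 (kup1 hR)⟩

end Pool.Agent.N738.EK
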